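import Mathlib

/-! Connectivity of sets for an abstract relation and the greedy packing lemma. -/

namespace Pool.Agent.P.MP_a374b6_co

open Set

variable {W : Type*} {ι : Type*}

/-- `S` is nonempty and connected for the relation `r` restricted to `S`. -/
def Conn (r : W → W → Prop) (S : Set W) : Prop :=
  S.Nonempty ∧ ∀ P : Set W, (∃ x ∈ S, x ∈ P) →
    (∀ x ∈ S, ∀ y ∈ S, x ∈ P → r x y → y ∈ P) → S ⊆ P

/-- Some element of `S` is related to some element of `T`. -/
def Touch (r : W → W → Prop) (S T : Set W) : Prop := ∃ x ∈ S, ∃ y ∈ T, r x y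

variable {r : W → W → Prop}

theorem Touch.symm (hs : ∀ x y, r x y → r y x) {S T : Set W} (h : Touch r S T) :
    Touch r T S := by
  obtain ⟨x, hx, y, hy, hxy⟩ := h
  exact ⟨y, hy, x, hx, hs _ _ hxy⟩

theorem Touch.mono {S T S' T' : Set W} (h : Touch r S T) (h1 : S ⊆ S') (h2 : T ⊆ T') :
    Touch r S' T' := by
  obtain ⟨x, hx, y, hy, hxy⟩ := h
  exact ⟨x, h1 hx, y, h2 hy, hxy⟩

theorem conn_singleton (x : W) : Conn r {x} := by
  refine ⟨singleton_nonempty x, fun P hP _ => ?_⟩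
  obtain ⟨y, hy, hyP⟩ := hP
  rw [mem_singleton_iff] at hy
  subst hy
  exact singleton_subset_iff.2 hyP

/-- A set dominated by a connected subset is connected. -/
theorem Conn.extend (hs : ∀ x y, r x y → r y x) {S T : Set W} (h : Conn r S) (hST : S ⊆ T)
    (hd : ∀ y ∈ T, y ∈ S ∨ ∃ x ∈ S, r x y) : Conn r T := by
  refine ⟨h.1.mono hST, fun P hP hcl => ?_⟩
  have hS : S ⊆ P := by
    refine h.2 P ?_ (fun x hx y hy hxP hxy => hcl x (hST hx) y (hST hy) hxP hxy)
    obtain ⟨y, hy, hyP⟩ := hP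
    rcases hd y hy with h1 | ⟨x, hx, hxy⟩
    · exact ⟨y, h1, hyP⟩
    · exact ⟨x, hx, hcl y hy x (hST hx) hyP (hs _ _ hxy)⟩
  intro y hy
  rcases hd y hy with h1 | ⟨x, hx, hxy⟩
  · exact hS h1
  · exact hcl x (hST hx) y hy (hS hx) hxy

theorem Conn.insert (hs : ∀ x y, r x y → r y x) {S : Set W} (h : Conn r S) {x y : W}
    (hx : x ∈ S) (hxy : r x y) : Conn r (insert y S) := by
  refine h.extend hs (subset_insert _ _) (fun z hz => ?_)
  rcases hz with rfl | hz
  · exact Or.inr ⟨x, hx, hxy⟩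
  · exact Or.inl hz

theorem conn_star (hs : ∀ x y, r x y → r y x) {T : Set W} {c : W} (hc : c ∈ T)
    (h : ∀ y ∈ T, y = c ∨ r c y) : Conn r T := by
  refine (conn_singleton c).extend hs (singleton_subset_iff.2 hc) (fun y hy => ?_)
  rcases h y hy with h1 | h1
  · exact Or.inl h1
  · exact Or.inr ⟨c, rfl, h1⟩

/-- Removing a vertex with at most one neighbour keeps a set connected. -/
theorem Conn.erase_leaf (hs : ∀ x y, r x y → r y x) {S : Set W} (h : Conn r S) {u : W}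
    (hne : (S \ {u}).Nonempty) (h1 : ∀ x ∈ S, ∀ y ∈ S, r u x → r u y → x = y) :
    Conn r (S \ {u}) := by
  refine ⟨hne, fun P hP hcl => ?_⟩
  have key : S ⊆ {z | (z ≠ u ∧ z ∈ P) ∨ (z = u ∧ ∃ w ∈ S, w ≠ u ∧ w ∈ P ∧ r u w)} := by
    refine h.2 _ ?_ ?_
    · obtain ⟨x, hx, hxP⟩ := hP
      exact ⟨x, hx.1, Or.inl ⟨hx.2, hxP⟩⟩
    · intro x hx y hy hxP hxy
      by_cases hyu : y = u
      · rcases hxP with ⟨hxu, hxP⟩ | ⟨hxu, hw⟩
        · exact Or.inr ⟨hyu, x, hx, hxu, hxP, hs _ _ (hyu ▸ hxy)⟩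
        · exact Or.inr ⟨hyu, hw⟩
      · rcases hxP with ⟨hxu, hxP⟩ | ⟨hxu, w, hw, hwu, hwP, huw⟩
        · exact Or.inl ⟨hyu, hcl x ⟨hx, hxu⟩ y ⟨hy, hyu⟩ hxP hxy⟩
        · have : y = w := h1 y hy w hw (hxu ▸ hxy) huw
          exact Or.inl ⟨hyu, this ▸ hwP⟩
  intro z hz
  rcases key hz.1 with h2 | h2
  · exact h2.2
  · exact absurd h2.1 hz.2

/-- Disjoint independent nonempty classes whose pairwise unions are connected. -/
structure Sys (r : W → W → Prop) (C : ι → Set W) : Prop where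
  symm : ∀ x y, r x y → r y x
  indep : ∀ i, ∀ x ∈ C i, ∀ y ∈ C i, ¬ r x y
  disj : ∀ i j, i ≠ j → ∀ x ∈ C i, x ∉ C j
  ne : ∀ i, (C i).Nonempty
  conn : ∀ i j, i ≠ j → Conn r (C i ∪ C j)

variable {C : ι → Set W}

/-- Every vertex has a neighbour in every other class. -/
theorem Sys.nbr (h : Sys r C) {i j : ι} (hij : i ≠ j) {x : W} (hx : x ∈ C i) :
    ∃ y ∈ C j, r x y := by
  by_contra hcon
  push Not at hcon
  have := (h.conn i j hij).2 {x} ⟨x, Or.inl hx, rfl⟩ (by
    intro a _ b hb ha hab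
    rw [mem_singleton_iff] at ha
    subst ha
    rcases hb with hb | hb
    · exact absurd hab (h.indep i a hx b hb)
    · exact absurd hab (hcon b hb))
  obtain ⟨y, hy⟩ := h.ne j
  have h2 : y = x := this (Or.inr hy)
  exact h.disj i j hij x hx (h2 ▸ hy)

/-- Three classes of `R` carry two disjoint connected sets that are big for two of them. -/
def Triple (r : W → W → Prop) (C : ι → Set W) (Big : ι → Set W → Prop) (R : Finset ι) : Prop :=
  ∃ a ∈ R, ∃ b ∈ R, ∃ c ∈ R, a ≠ b ∧ a ≠ c ∧ b ≠ c ∧ ∃ M N : Set W, Conn r M ∧ Conn r N ∧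
    Disjoint M N ∧ M ⊆ C a ∪ C b ∪ C c ∧ N ⊆ C a ∪ C b ∪ C c ∧ Big a M ∧ Big b N

/-- A family of at least `k` nodes inside the classes of `R`, touching all big sets of the
classes of `R0` outside `R`. -/
def Fam (r : W → W → Prop) (C : ι → Set W) (Big : ι → Set W → Prop) (R0 R : Finset ι)
    (k : ℕ) : Prop :=
  ∃ L : List (Set W), k ≤ L.length ∧
    (∀ N ∈ L, Conn r N ∧ (∀ x ∈ N, ∃ i ∈ R, x ∈ C i) ∧
      ∀ j ∈ R0, j ∉ R → ∀ T, Big j T → Touch r N T) ∧
    L.Pairwise (fun M N => Disjoint M N ∧ Touch r M N)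

theorem greedy [DecidableEq ι] (h : Sys r C) (Big : ι → Set W → Prop) (R0 : Finset ι)
    (hK : ∀ i T, C i ⊆ T → Big i T)
    (compat : ∀ i ∈ R0, ∀ j ∈ R0, i ≠ j → ∀ S T, Big i S → Big j T → Touch r S T)
    (base : ∀ R ⊆ R0, 3 ≤ R.card → ¬ Triple r C Big R → Fam r C Big R0 R (2 * R.card / 3)) :
    ∀ R ⊆ R0, Fam r C Big R0 R (2 * R.card / 3) := by
  intro R
  induction R using Finset.strongInduction with
  | H R ih =>
  intro hR
  by_cases h3 : 3 ≤ R.card
  · by_cases ht : Triple r C Big R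
    · obtain ⟨a, ha, b, hb, c, hc, hab, hac, hbc, M, N, hM, hN, hMN, hMs, hNs, hBM, hBN⟩ := ht
      set R' := ((R.erase a).erase b).erase c with hR'
      have hmem : ∀ i, i ∈ R' ↔ i ≠ c ∧ i ≠ b ∧ i ≠ a ∧ i ∈ R := by
        intro i; simp [hR']
      have hsub : R' ⊆ R := fun i hi => ((hmem i).1 hi).2.2.2
      have hss : R' ⊂ R := ⟨hsub, fun hh => ((hmem a).1 (hh ha)).2.2.1 rfl⟩
      have hcard : R'.card + 3 = R.card := by
        have e1 := Finset.card_erase_add_one ha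
        have e2 := Finset.card_erase_add_one (Finset.mem_erase.2 ⟨hab.symm, hb⟩ : b ∈ R.erase a)
        have e3 := Finset.card_erase_add_one (Finset.mem_erase.2 ⟨hbc.symm,
          Finset.mem_erase.2 ⟨hac.symm, hc⟩⟩ : c ∈ (R.erase a).erase b)
        rw [hR']; omega
      obtain ⟨L, hL, hL1, hL2⟩ := ih R' hss (hsub.trans hR)
      have hin : ∀ Z : Set W, Z ⊆ C a ∪ C b ∪ C c → ∀ x ∈ Z, ∃ i ∈ R, x ∈ C i := by
        intro Z hZ x hx
        rcases hZ hx with (h1 | h1) | h1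
        exacts [⟨a, ha, h1⟩, ⟨b, hb, h1⟩, ⟨c, hc, h1⟩]
      have hdis : ∀ Z : Set W, Z ⊆ C a ∪ C b ∪ C c → ∀ Y ∈ L, Disjoint Z Y := by
        intro Z hZ Y hY
        rw [Set.disjoint_left]
        intro x hx hxY
        obtain ⟨i, hi, hxi⟩ := (hL1 Y hY).2.1 x hxY
        obtain ⟨e1, e2, e3, -⟩ := (hmem i).1 hi
        rcases hZ hx with (h1 | h1) | h1
        exacts [h.disj i a e3 x hxi h1, h.disj i b e2 x hxi h1, h.disj i c e1 x hxi h1]
      refine ⟨M :: N :: L, ?_, ?_, ?_⟩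
      · simp only [List.length_cons]; omega
      · intro Y hY
        simp only [List.mem_cons] at hY
        rcases hY with rfl | rfl | hY
        · exact ⟨hM, hin _ hMs, fun j hj hjR T hT =>
            compat a (hR ha) j hj (fun e => hjR (e ▸ ha)) _ _ hBM hT⟩
        · exact ⟨hN, hin _ hNs, fun j hj hjR T hT =>
            compat b (hR hb) j hj (fun e => hjR (e ▸ hb)) _ _ hBN hT⟩
        · obtain ⟨e1, e2, e3⟩ := hL1 Y hY
          refine ⟨e1, fun x hx => ?_, fun j hj hjR T hT => e3 j hj (fun e => hjR (hsub e)) T hT⟩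
          obtain ⟨i, hi, hxi⟩ := e2 x hx
          exact ⟨i, hsub hi, hxi⟩
      · refine List.Pairwise.cons ?_ (List.Pairwise.cons ?_ hL2)
        · intro Y hY
          simp only [List.mem_cons] at hY
          rcases hY with rfl | hY
          · exact ⟨hMN, compat a (hR ha) b (hR hb) hab _ _ hBM hBN⟩
          · exact ⟨hdis M hMs Y hY, ((hL1 Y hY).2.2 a (hR ha)
              (fun e => ((hmem a).1 e).2.2.1 rfl) M hBM).symm h.symm⟩
        · intro Y hY
          exact ⟨hdis N hNs Y hY, ((hL1 Y hY).2.2 b (hR hb)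
              (fun e => ((hmem b).1 e).2.1 rfl) N hBN).symm h.symm⟩
    · exact base R hR h3 ht
  · by_cases h2 : R.card = 2
    · obtain ⟨a, b, hab, rfl⟩ := Finset.card_eq_two.1 h2
      refine ⟨[C a ∪ C b], by rw [h2]; simp, ?_, List.pairwise_singleton _ _⟩
      intro Y hY
      rw [List.mem_singleton] at hY
      subst hY
      refine ⟨h.conn a b hab, fun x hx => ?_, fun j hj hjR T hT => ?_⟩
      · rcases hx with hx | hx
        exacts [⟨a, by simp, hx⟩, ⟨b, by simp, hx⟩]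
      · exact compat a (hR (by simp)) j hj (fun e => hjR (by simp [← e])) _ _
          (hK a _ subset_union_left) hT
    · refine ⟨[], ?_, by simp, List.Pairwise.nil⟩
      simp only [List.length_nil]; omega

end Pool.Agent.P.MP_a374b6_co
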