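import Pool.Agent.P.MP_a374b6_co.Stage

/-! The remainder after the second greedy stage, and the abstract theorem. -/

namespace Pool.Agent.P.MP_a374b6_co

open Set

variable {W : Type*} {ι : Type*} {r : W → W → Prop} {C : ι → Set W} {R0 : Finset ι}

/-- The vertex `d` together with its neighbours in the class `A`. -/
def Star (r : W → W → Prop) (C : ι → Set W) (d : W) (A : ι) : Set W :=
  insert d {a | a ∈ C A ∧ r d a}

theorem star_conn (hs : ∀ x y, r x y → r y x) (d : W) (A : ι) : Conn r (Star r C d A) := by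
  refine conn_star hs (mem_insert _ _) ?_
  rintro y (hy | hy)
  exacts [Or.inl hy, Or.inr hy.2]

theorem star_big {d : W} {A : ι} (h : Big2 r C R0 A {a | r d a}) :
    Big2 r C R0 A (Star r C d A) :=
  ⟨fun u hu hU => Or.inr ⟨hu, h.1 u hu hU⟩, fun x hx y hy h1 h2 =>
    h.2 x hx y hy (fun e => h1 (Or.inr ⟨hx, e⟩)) (fun e => h2 (Or.inr ⟨hy, e⟩))⟩

/-- The situation after the second greedy stage. -/
structure Ctx2 (r : W → W → Prop) (C : ι → Set W) (R0 R : Finset ι) : Prop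
    extends Ctx r C R0 where
  sub : R ⊆ R0
  card2 : 3 ≤ R.card
  nt2 : ¬ Triple r C (Big2 r C R0) R

variable {R : Finset ι}

theorem Ctx2.good_eq (h : Ctx2 r C R0 R) {D A B : ι} (hD : D ∈ R) (hA : A ∈ R) (hB : B ∈ R)
    (hAB : A ≠ B) (hAD : A ≠ D) (hBD : B ≠ D) {d d' : W} (hd : d ∈ C D) (hd' : d' ∈ C D)
    (g : Big2 r C R0 A {a | r d a}) (g' : Big2 r C R0 B {a | r d' a}) : d = d' := by
  by_contra hne
  refine h.nt2 ⟨A, hA, B, hB, D, hD, hAB, hAD, hBD, Star r C d A, Star r C d' B,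
    star_conn h.symm _ _, star_conn h.symm _ _, ?_, ?_, ?_, star_big g, star_big g'⟩
  · rw [Set.disjoint_left]
    rintro x (rfl | hx) (h1 | h1)
    · exact hne h1
    · exact h.disj D B hBD.symm x hd h1.1
    · exact h.disj A D hAD x hx.1 (h1 ▸ hd')
    · exact h.disj A B hAB x hx.1 h1.1
  · rintro x (rfl | hx)
    exacts [Or.inr hd, Or.inl (Or.inl hx.1)]
  · rintro x (rfl | hx)
    exacts [Or.inr hd', Or.inl (Or.inr hx.1)]

theorem Ctx2.centre (h : Ctx2 r C R0 R) {D : ι} (hD : D ∈ R) :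
    ∃ c ∈ C D, (∀ A ∈ R, A ≠ D → Big2 r C R0 A {a | r c a}) ∧
      ∀ A ∈ R, A ≠ D → ∀ d ∈ C D, Big2 r C R0 A {a | r d a} → d = c := by
  obtain ⟨A, hA, hAD, -⟩ := exists_third h.card2 D D
  obtain ⟨B, hB, hBD, hBA⟩ := exists_third h.card2 D A
  obtain ⟨c, hc, gA⟩ := h.good (h.sub hD) (h.sub hA) hAD
  obtain ⟨c', hc', gB⟩ := h.good (h.sub hD) (h.sub hB) hBD
  have e : c' = c := h.good_eq hD hB hA hBA hBD hAD hc' hc gB gA
  subst e
  have key : ∀ E ∈ R, E ≠ D → ∀ d ∈ C D, Big2 r C R0 E {a | r d a} → d = c' := by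
    intro E hE hED d hd g
    by_cases hEA : E = A
    · exact h.good_eq hD hE hB (fun e => hBA (e ▸ hEA)) hED hBD hd hc g gB
    · exact h.good_eq hD hE hA hEA hED hAD hd hc g gA
  refine ⟨c', hc, fun E hE hED => ?_, key⟩
  obtain ⟨d, hd, g⟩ := h.good (h.sub hD) (h.sub hE) hED
  exact key E hE hED d hd g ▸ g

/-- A choice of centres. -/
def Centres (r : W → W → Prop) (C : ι → Set W) (R0 R : Finset ι) (c : ι → W) : Prop :=
  ∀ D ∈ R, c D ∈ C D ∧ (∀ A ∈ R, A ≠ D → Big2 r C R0 A {a | r (c D) a}) ∧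
      ∀ A ∈ R, A ≠ D → ∀ d ∈ C D, Big2 r C R0 A {a | r d a} → d = c D

variable {c : ι → W}

theorem Ctx2.missed (h : Ctx2 r C R0 R) (hc : Centres r C R0 R c) {D F : ι} (hD : D ∈ R)
    (hF : F ∈ R) (hDF : D ≠ F) (hU : ¬ Univ r C R0 (c D)) :
    ∃ x ∈ C D, x ≠ c D ∧ ¬ r (c F) x := by
  by_contra hcon
  push Not at hcon
  obtain ⟨E, hE, hED, hEF⟩ := exists_third h.card2 D F
  have hcD := (hc D hD).1
  have hcF := (hc F hF).1
  refine h.nt2 ⟨D, hD, E, hE, F, hF, hED.symm, hDF, hEF, insert (c F) (C D \ {c D}),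
    Star r C (c D) E, ?_, star_conn h.symm _ _, ?_, ?_, ?_, ?_,
    star_big ((hc D hD).2.1 E hE hED)⟩
  · refine conn_star h.symm (mem_insert _ _) ?_
    rintro y (hy | hy)
    exacts [Or.inl hy, Or.inr (hcon y hy.1 hy.2)]
  · rw [Set.disjoint_left]
    rintro x (rfl | hx) (h1 | h1)
    · exact h.disj F D hDF.symm _ hcF (h1 ▸ hcD)
    · exact h.disj F E hEF.symm _ hcF h1.1
    · exact hx.2 h1
    · exact h.disj D E hED.symm x hx.1 h1.1
  · rintro x (rfl | hx)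
    exacts [Or.inr hcF, Or.inl (Or.inl hx.1)]
  · rintro x (rfl | hx)
    exacts [Or.inl (Or.inl hcD), Or.inl (Or.inr hx.1)]
  · refine ⟨fun u hu hUu => Or.inr ⟨hu, fun e => hU ((mem_singleton_iff.1 e) ▸ hUu)⟩, ?_⟩
    intro x hx y hy h1 h2
    have e1 : x = c D := by
      by_contra e; exact h1 (Or.inr ⟨hx, e⟩)
    have e2 : y = c D := by
      by_contra e; exact h2 (Or.inr ⟨hy, e⟩)
    rw [e1, e2]

theorem Ctx2.exists_univ (h : Ctx2 r C R0 R) (hc : Centres r C R0 R c) {D E : ι} (hD : D ∈ R)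
    (hE : E ∈ R) (hED : E ≠ D) (hU : ¬ Univ r C R0 (c D)) : ∃ u ∈ C E, Univ r C R0 u := by
  by_contra hcon
  push Not at hcon
  apply hU
  refine ⟨E, h.sub hE, fun x hx => ?_⟩
  obtain ⟨d, hd, hdx, a, ha, hax, hda⟩ := h.second (h.sub hE) hED hx
  have : d = c D := (hc D hD).2.2 E hE hED d hd
    ⟨fun u hu hUu => absurd hUu (hcon u hu), (h.three E (h.sub hE)).miss ha hx hax hda hdx⟩
  exact this ▸ hdx

theorem Ctx2.nonadj (h : Ctx2 r C R0 R) (hc : Centres r C R0 R c) {K E : ι} (hK : K ∈ R)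
    (hE : E ∈ R) (hEK : E ≠ K) {v : W} (hv : v ∈ C K) (hU : Univ r C R0 v) (hne : v ≠ c K) :
    ∃ w ∈ C E, Univ r C R0 w ∧ ¬ r v w := by
  by_contra hcon
  push Not at hcon
  exact hne ((hc K hK).2.2 E hE hEK v hv
    ⟨hcon, h.miss_one (h.sub hK) (h.sub hE) hEK hv hU⟩)

/-- The shape of a class whose centre is not universal. -/
theorem Ctx2.shape (h : Ctx2 r C R0 R) (hc : Centres r C R0 R c) {D E F : ι} (hD : D ∈ R)
    (hE : E ∈ R) (hF : F ∈ R) (hDE : D ≠ E) (hDF : D ≠ F) (hU : ¬ Univ r C R0 (c D))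
    (hU' : ¬ Univ r C R0 (c E)) :
    ∃ u ∈ C D, ∃ x ∈ C D, Univ r C R0 u ∧ u ≠ c D ∧ u ≠ x ∧ x ≠ c D ∧ r (c F) u ∧
      r (c F) (c D) ∧ (∀ v ∈ C D, Univ r C R0 v → v = u) ∧
      ∀ N : Set W, u ∈ N → c D ∈ N → Big2 r C R0 D N := by
  obtain ⟨u, hu, hUu⟩ := h.exists_univ hc hE hD hDE hU'
  obtain ⟨x, hx, hxc, hFx⟩ := h.missed hc hD hF hDF hU
  have g := (hc F hF).2.1 D hD hDF
  have hcD := (hc D hD).1
  have hUx : ¬ Univ r C R0 x := fun e => hFx (g.1 x hx e)
  have huc : u ≠ c D := fun e => hU (e ▸ hUu)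
  have hux : u ≠ x := fun e => hUx (e ▸ hUu)
  have hall := fun v hv => (h.three D (h.sub hD)).cases (x := v) hu hx hcD hux huc hxc hv
  have huniq : ∀ v ∈ C D, Univ r C R0 v → v = u := by
    intro v hv hUv
    rcases hall v hv with e | e | e
    · exact e
    · exact absurd (e ▸ hUv) hUx
    · exact absurd (e ▸ hUv) hU
  refine ⟨u, hu, x, hx, hUu, huc, hux, hxc, g.1 u hu hUu, ?_, huniq, ?_⟩
  · by_contra e
    exact hxc (g.2 x hx (c D) hcD hFx e)
  · intro N h1 h2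
    refine ⟨fun v hv hUv => huniq v hv hUv ▸ h1, fun y hy z hz hyN hzN => ?_⟩
    have k : ∀ y ∈ C D, y ∉ N → y = x := by
      intro y hy hyN
      rcases hall y hy with e | e | e
      · exact absurd (e ▸ h1) hyN
      · exact e
      · exact absurd (e ▸ h2) hyN
    rw [k y hy hyN, k z hz hzN]

theorem Ctx2.at_most_one (h : Ctx2 r C R0 R) (hc : Centres r C R0 R c) {D E : ι} (hD : D ∈ R)
    (hE : E ∈ R) (hU : ¬ Univ r C R0 (c D)) (hU' : ¬ Univ r C R0 (c E)) : D = E := by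
  by_contra hDE
  have hED : E ≠ D := fun e => hDE e.symm
  obtain ⟨F, hF, hFD, hFE⟩ := exists_third h.card2 D E
  obtain ⟨u, hu, x, hx, hUu, huc, hux, hxc, hFu, hFc, -, hbig⟩ :=
    h.shape hc hD hE hF hDE hFD.symm hU hU'
  obtain ⟨v, hv, -, -, hUv, hvc, -, -, -, -, huniq, hbig'⟩ :=
    h.shape hc hE hD hF hED hFE.symm hU' hU
  have hcD := (hc D hD).1
  have hcE := (hc E hE).1
  have hcF := (hc F hF).1
  have huv : ¬ r u v := by
    obtain ⟨w, hw, hUw, huw⟩ := h.nonadj hc hD hE hED hu hUu huc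
    exact huniq w hw hUw ▸ huw
  obtain ⟨w, hw, hUw, huw⟩ := h.nonadj hc hD hF hFD hu hUu huc
  have hwc : w ≠ c F := fun e => huw (h.symm _ _ (e ▸ hFu))
  have hwv : ¬ r w v := by
    obtain ⟨w', hw', hUw', huw'⟩ := h.nonadj hc hF hE hFE.symm hw hUw hwc
    exact huniq w' hw' hUw' ▸ huw'
  have hvx : r v x := by
    by_contra e
    exact hux (h.miss_one (h.sub hE) (h.sub hD) hDE hv hUv u hu x hx
      (fun e' => huv (h.symm _ _ e')) e)
  have hwx : r w x := by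
    by_contra e
    exact hux (h.miss_one (h.sub hF) (h.sub hD) hFD.symm hw hUw u hu x hx
      (fun e' => huw (h.symm _ _ e')) e)
  have hwE : r w (c E) := by
    by_contra e
    exact hvc (h.miss_one (h.sub hF) (h.sub hE) hFE.symm hw hUw v hv (c E) hcE hwv e)
  refine h.nt2 ⟨D, hD, E, hE, F, hF, hDE, hFD.symm, hFE.symm, {c F, c D, u}, {v, x, c E, w},
    ?_, ?_, ?_, ?_, ?_, hbig _ (by simp) (by simp), hbig' _ (by simp) (by simp)⟩
  · refine conn_star h.symm (c := c F) (by simp) ?_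
    rintro y (rfl | rfl | rfl)
    exacts [Or.inl rfl, Or.inr hFc, Or.inr hFu]
  · exact (((conn_singleton w).insert h.symm rfl hwE).insert h.symm (x := w) (by simp)
      hwx).insert h.symm (x := x) (by simp) (h.symm _ _ hvx)
  · rw [Set.disjoint_left]
    rintro y (rfl | rfl | rfl) (h1 | h1 | h1 | h1)
    · exact h.disj F E hFE _ hcF (h1 ▸ hv)
    · exact h.disj F D hFD _ hcF (h1 ▸ hx)
    · exact h.disj F E hFE _ hcF (h1 ▸ hcE)
    · exact hwc (mem_singleton_iff.1 h1).symm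
    · exact h.disj D E hDE _ hcD (h1 ▸ hv)
    · exact hxc h1.symm
    · exact h.disj D E hDE _ hcD (h1 ▸ hcE)
    · exact h.disj D F hFD.symm _ hcD ((mem_singleton_iff.1 h1) ▸ hw)
    · exact h.disj D E hDE _ hu (h1 ▸ hv)
    · exact hux h1
    · exact h.disj D E hDE _ hu (h1 ▸ hcE)
    · exact h.disj D F hFD.symm _ hu ((mem_singleton_iff.1 h1) ▸ hw)
  · rintro y (rfl | rfl | rfl)
    exacts [Or.inr hcF, Or.inl (Or.inl hcD), Or.inl (Or.inl hu)]
  · rintro y (rfl | rfl | rfl | rfl)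
    exacts [Or.inl (Or.inr hv), Or.inl (Or.inl hx), Or.inl (Or.inr hcE), Or.inr hw]

theorem Ctx2.fam (h : Ctx2 r C R0 R) : Fam r C (Big2 r C R0) R0 R (2 * R.card / 3) := by
  classical
  obtain ⟨D0, -, -, -⟩ := exists_third h.card2 (Classical.choice ⟨(Finset.card_pos.1
    (by have := h.card2; omega : 0 < R.card)).choose⟩) (Finset.card_pos.1
    (by have := h.card2; omega : 0 < R.card)).choose
  have : Nonempty W := ⟨(h.ne D0).some⟩
  have hex : ∃ c : ι → W, Centres r C R0 R c := by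
    have := fun D (hD : D ∈ R) => h.centre hD
    choose! c hc using this
    exact ⟨c, hc⟩
  obtain ⟨c, hc⟩ := hex
  set R' := R.filter (fun D => Univ r C R0 (c D)) with hR'
  have hcard : R.card ≤ R'.card + 1 := by
    have e1 := Finset.card_filter_add_card_filter_not (s := R) (fun D => Univ r C R0 (c D))
    have e2 : (R.filter (fun D => ¬ Univ r C R0 (c D))).card ≤ 1 := by
      rw [Finset.card_le_one]
      intro D hD E hE
      rw [Finset.mem_filter] at hD hE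
      exact h.at_most_one hc hD.1 hE.1 hD.2 hE.2
    rw [hR']; omega
  refine ⟨R'.toList.map (fun D => {c D}), ?_, ?_, ?_⟩
  · rw [List.length_map, Finset.length_toList]
    have := h.card2
    omega
  · intro N hN
    rw [List.mem_map] at hN
    obtain ⟨D, hD, rfl⟩ := hN
    rw [Finset.mem_toList, hR', Finset.mem_filter] at hD
    have hcD := (hc D hD.1).1
    refine ⟨conn_singleton _, fun x hx => ⟨D, hD.1, (mem_singleton_iff.1 hx) ▸ hcD⟩, ?_⟩
    intro j hj hjR T hT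
    have hjD : j ≠ D := fun e => hjR (e ▸ hD.1)
    obtain ⟨a, ha, -, h1⟩ := h.two_nbrs (h.sub hD.1) hj hjD hcD hD.2 (c D)
    obtain ⟨a', ha', hne, h2⟩ := h.two_nbrs (h.sub hD.1) hj hjD hcD hD.2 a
    by_cases haT : a ∈ T
    · exact ⟨_, rfl, a, haT, h1⟩
    · refine ⟨_, rfl, a', ?_, h2⟩
      by_contra e
      exact hne (hT.2 a' ha' a ha e haT)
  · rw [List.pairwise_map]
    refine (Finset.nodup_toList R').pairwise_of_forall_ne ?_
    intro D hD E hE hDE
    rw [Finset.mem_toList, hR', Finset.mem_filter] at hD hE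
    have hcD := (hc D hD.1).1
    have hcE := (hc E hE.1).1
    refine ⟨?_, _, rfl, _, rfl, ((hc D hD.1).2.1 E hE.1 hDE.symm).1 _ hcE hE.2⟩
    rw [Set.disjoint_singleton]
    exact fun e => h.disj D E hDE _ hcD (e ▸ hcE)

/-- The abstract theorem: classes of at most three vertices give two nodes per three classes. -/
theorem Sys.fam_three [DecidableEq ι] (h : Sys r C) (R1 : Finset ι)
    (h3 : ∀ i ∈ R1, Three (C i)) :
    Fam r C (fun i T => C i ⊆ T) R1 R1 (2 * R1.card / 3) := by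
  refine greedy h (fun i T => C i ⊆ T) R1 (fun _ _ e => e) ?_ ?_ R1 (Finset.Subset.refl _)
  · intro i _ j _ hij S T hS hT
    obtain ⟨x, hx⟩ := h.ne i
    obtain ⟨y, hy, hxy⟩ := h.nbr hij hx
    exact ⟨x, hS hx, y, hT hy, hxy⟩
  · intro R0 hR0 hc nt
    have hctx : Ctx r C R0 := { h with three := fun i hi => h3 i (hR0 hi), card := hc, nt := nt }
    obtain ⟨L, hL, hL1, hL2⟩ := greedy h (Big2 r C R0) R0
      (fun i T e => ⟨fun u hu _ => e hu, fun x hx _ _ h1 _ => absurd (e hx) h1⟩)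
      (fun i hi j hj hij S T hS hT => hctx.compat hi hj hij hS hT)
      (fun R hR hc2 nt2 => Ctx2.fam { hctx with sub := hR, card2 := hc2, nt2 := nt2 })
      R0 (Finset.Subset.refl _)
    refine ⟨L, hL, fun N hN => ⟨(hL1 N hN).1, (hL1 N hN).2.1, fun j _ hjR T hT => ?_⟩, hL2⟩
    obtain ⟨x, hx⟩ := (hL1 N hN).1.1
    obtain ⟨i, hi, hxi⟩ := (hL1 N hN).2.1 x hx
    obtain ⟨y, hy, hxy⟩ := h.nbr (fun e : i = j => hjR (e ▸ hi)) hxi
    exact ⟨x, hx, y, hT hy, hxy⟩

end Pool.Agent.P.MP_a374b6_co
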