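import Pool.Agent.P.MP_a374b6_co.Mixed

/-! Passing from a graph to the system of components of its pseudo-nodes and back. -/

namespace Pool.Agent.P.MP_a374b6_co

open Set

variable {V : Type*} {ι : Type*} (G : SimpleGraph V) (A : ι → Set V)

/-- The components of all pseudo-nodes. -/
abbrev Comp : Type _ := Σ i : ι, (G.induce (A i)).ConnectedComponent

/-- The vertex set of a component. -/
def blob (p : Comp G A) : Set V :=
  {v | ∃ h : v ∈ A p.1, (G.induce (A p.1)).connectedComponentMk ⟨v, h⟩ = p.2}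

/-- Components of different pseudo-nodes joined by an edge. -/
def crel (p q : Comp G A) : Prop := p.1 ≠ q.1 ∧ ∃ x ∈ blob G A p, ∃ y ∈ blob G A q, G.Adj x y

/-- The components of one pseudo-node. -/
def ccls (i : ι) : Set (Comp G A) := {p | p.1 = i}

/-- The union of a set of components. -/
def flat (N : Set (Comp G A)) : Set V := {v | ∃ p ∈ N, v ∈ blob G A p}

variable {G A}

theorem blob_ne (p : Comp G A) : (blob G A p).Nonempty := by
  obtain ⟨i, c⟩ := p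
  obtain ⟨⟨v, hv⟩, rfl⟩ := c.exists_rep
  exact ⟨v, hv, rfl⟩

theorem blob_uniq (hd : Pairwise fun i j => Disjoint (A i) (A j)) {p q : Comp G A} {v : V}
    (hp : v ∈ blob G A p) (hq : v ∈ blob G A q) : p = q := by
  obtain ⟨i, c⟩ := p
  obtain ⟨j, d⟩ := q
  obtain ⟨h1, e1⟩ := hp
  obtain ⟨h2, e2⟩ := hq
  by_cases hij : i = j
  · subst hij
    dsimp only at e1 e2
    rw [← e1, ← e2]
  · exact absurd h2 (Set.disjoint_left.1 (hd hij) h1)

theorem blob_step {p : Comp G A} {v w : V} (hv : v ∈ blob G A p) (hw : w ∈ A p.1)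
    (h : G.Adj v w) : w ∈ blob G A p := by
  obtain ⟨h1, e1⟩ := hv
  refine ⟨hw, ?_⟩
  rw [← e1, SimpleGraph.ConnectedComponent.eq]
  exact SimpleGraph.Adj.reachable (show (G.induce (A p.1)).Adj ⟨w, hw⟩ ⟨v, h1⟩ from h.symm)

theorem blob_reach {p : Comp G A} {T : Set V} (hT : blob G A p ⊆ T) {v w : V}
    (hv : v ∈ blob G A p) (hw : w ∈ blob G A p) :
    (G.induce T).Reachable ⟨v, hT hv⟩ ⟨w, hT hw⟩ := by
  have key : ∀ (x y : A p.1) (W : (G.induce (A p.1)).Walk x y) (hx : x.1 ∈ blob G A p),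
      ∃ hy : y.1 ∈ blob G A p, (G.induce T).Reachable ⟨x.1, hT hx⟩ ⟨y.1, hT hy⟩ := by
    intro x y W
    induction W with
    | nil => exact fun hx => ⟨hx, SimpleGraph.Reachable.refl _⟩
    | @cons a b c hab _ ih =>
      intro hx
      have hb : b.1 ∈ blob G A p := blob_step hx b.2 hab
      obtain ⟨hy, hr⟩ := ih hb
      refine ⟨hy, SimpleGraph.Reachable.trans ?_ hr⟩
      exact SimpleGraph.Adj.reachable
        (show (G.induce T).Adj ⟨a.1, hT hx⟩ ⟨b.1, hT hb⟩ from hab)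
  obtain ⟨h1, e1⟩ := id hv
  obtain ⟨h2, e2⟩ := id hw
  have : (G.induce (A p.1)).Reachable ⟨v, h1⟩ ⟨w, h2⟩ := by
    rw [← SimpleGraph.ConnectedComponent.eq, e1, e2]
  obtain ⟨W⟩ := this
  exact (key _ _ W hv).2

theorem flat_connected {N : Set (Comp G A)} (h : Conn (crel G A) N) :
    (G.induce (flat G A N)).Connected := by
  obtain ⟨p0, hp0⟩ := h.1
  obtain ⟨v0, hv0⟩ := blob_ne p0
  have hsub : ∀ p ∈ N, blob G A p ⊆ flat G A N := fun p hp v hv => ⟨p, hp, hv⟩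
  have h0 : v0 ∈ flat G A N := hsub p0 hp0 hv0
  have key := h.2 {p | ∀ v ∈ blob G A p, ∀ hv : v ∈ flat G A N,
      (G.induce (flat G A N)).Reachable ⟨v0, h0⟩ ⟨v, hv⟩}
    ⟨p0, hp0, fun v hv _ => blob_reach (hsub p0 hp0) hv0 hv⟩ (by
      rintro p hp q hq hP ⟨-, x, hx, y, hy, hxy⟩ v hv _
      refine ((hP x hx (hsub p hp hx)).trans ?_).trans (blob_reach (hsub q hq) hy hv)
      exact SimpleGraph.Adj.reachable
        (show (G.induce (flat G A N)).Adj ⟨x, hsub p hp hx⟩ ⟨y, hsub q hq hy⟩ from hxy))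
  rw [SimpleGraph.connected_iff_exists_forall_reachable]
  refine ⟨⟨v0, h0⟩, ?_⟩
  rintro ⟨v, p, hp, hv⟩
  exact key hp v hv _

theorem comp_sys (hne : ∀ i, (A i).Nonempty) (hd : Pairwise fun i j => Disjoint (A i) (A j))
    (hc : Pairwise fun i j => (G.induce (A i ∪ A j)).Connected) :
    Sys (crel G A) (ccls G A) where
  symm := by
    rintro p q ⟨h1, x, hx, y, hy, hxy⟩
    exact ⟨h1.symm, y, hy, x, hx, hxy.symm⟩
  indep := by
    intro i p hp q hq h
    exact h.1 (hp.trans hq.symm)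
  disj := by
    intro i j hij p hp hq
    exact hij (hp.symm.trans hq)
  ne := by
    intro i
    obtain ⟨v, hv⟩ := hne i
    exact ⟨⟨i, (G.induce (A i)).connectedComponentMk ⟨v, hv⟩⟩, rfl⟩
  conn := by
    intro i j hij
    have hmk : ∀ k (v : V) (hv : v ∈ A k),
        v ∈ blob G A ⟨k, (G.induce (A k)).connectedComponentMk ⟨v, hv⟩⟩ := fun k v hv => ⟨hv, rfl⟩
    have hin : ∀ p ∈ ccls G A i ∪ ccls G A j, blob G A p ⊆ A i ∪ A j := by
      rintro p (hp | hp) v hv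
      · exact Or.inl ((show p.1 = i from hp) ▸ hv.1)
      · exact Or.inr ((show p.1 = j from hp) ▸ hv.1)
    refine ⟨?_, fun P hP hcl => ?_⟩
    · obtain ⟨v, hv⟩ := hne i
      exact ⟨⟨i, (G.induce (A i)).connectedComponentMk ⟨v, hv⟩⟩, Or.inl rfl⟩
    have key : ∀ (x y : ↥(A i ∪ A j)) (W : (G.induce (A i ∪ A j)).Walk x y),
        (∃ p ∈ ccls G A i ∪ ccls G A j, p ∈ P ∧ x.1 ∈ blob G A p) →
        (∃ p ∈ ccls G A i ∪ ccls G A j, p ∈ P ∧ y.1 ∈ blob G A p) := by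
      intro x y W
      induction W with
      | nil => exact id
      | @cons a b c hab _ ih =>
        rintro ⟨p, hp, hpP, ha⟩
        apply ih
        have hab' : G.Adj a.1 b.1 := hab
        obtain ⟨k, hk, hbk⟩ : ∃ k, (k = i ∨ k = j) ∧ b.1 ∈ A k := by
          rcases b.2 with hb | hb
          exacts [⟨i, Or.inl rfl, hb⟩, ⟨j, Or.inr rfl, hb⟩]
        by_cases hpk : p.1 = k
        · exact ⟨p, hp, hpP, blob_step ha (hpk ▸ hbk) hab'⟩
        · refine ⟨⟨k, (G.induce (A k)).connectedComponentMk ⟨b.1, hbk⟩⟩, hk, ?_, hmk k _ hbk⟩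
          exact hcl p hp _ hk hpP ⟨hpk, a.1, ha, b.1, hmk k _ hbk, hab'⟩
    intro q hq
    obtain ⟨p, hp, hpP⟩ := hP
    obtain ⟨v, hv⟩ := blob_ne p
    obtain ⟨w, hw⟩ := blob_ne q
    obtain ⟨W⟩ := (hc hij).preconnected ⟨v, hin p hp hv⟩ ⟨w, hin q hq hw⟩
    obtain ⟨q', -, hq'P, hw'⟩ := key _ _ W ⟨p, hp, hpP, hv⟩
    exact blob_uniq hd hw' hw ▸ hq'P

theorem comp_three [Finite V] {i : ι}
    (h : Nat.card (G.induce (A i)).ConnectedComponent ≤ 3) : Three (ccls G A i) := by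
  classical
  rintro ⟨m, a⟩ ha ⟨j, b⟩ hb ⟨k, c⟩ hc ⟨l, d⟩ hd
  obtain rfl : i = m := ha.symm
  obtain rfl : i = j := hb.symm
  obtain rfl : i = k := hc.symm
  obtain rfl : i = l := hd.symm
  by_contra hcon
  simp only [Sigma.mk.inj_iff, heq_eq_eq, true_and, not_or] at hcon
  obtain ⟨h1, h2, h3, h4, h5, h6⟩ := hcon
  have := Fintype.ofFinite (G.induce (A i)).ConnectedComponent
  have h7 : ({a, b, c, d} : Finset _).card = 4 := by
    rw [Finset.card_insert_of_notMem (by simp [h1, h2, h3]),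
      Finset.card_insert_of_notMem (by simp [h4, h5]), Finset.card_pair h6]
  have h8 := Finset.card_le_univ ({a, b, c, d} : Finset _)
  rw [Nat.card_eq_fintype_card] at h
  omega

theorem graph_mixed [Finite V] [DecidableEq ι] (hne : ∀ i, (A i).Nonempty)
    (hd : Pairwise fun i j => Disjoint (A i) (A j))
    (hc : Pairwise fun i j => (G.induce (A i ∪ A j)).Connected)
    (R1 R2 : Finset ι) (hR : Disjoint R1 R2)
    (h3 : ∀ i ∈ R1, Nat.card (G.induce (A i)).ConnectedComponent ≤ 3) :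
    ∃ N : Fin (2 * R1.card / 3 + R2.card / 2) → Set V, (∀ k, (G.induce (N k)).Connected) ∧
      (Pairwise fun k l => Disjoint (N k) (N l)) ∧
      Pairwise fun k l => ∃ x ∈ N k, ∃ y ∈ N l, G.Adj x y := by
  have hs := comp_sys hne hd hc
  obtain ⟨L, hL, h1, h2⟩ := hs.mixed R1 R2 hR (fun i hi => comp_three (h3 i hi))
  have hpw : ∀ k l : Fin (2 * R1.card / 3 + R2.card / 2), k ≠ l →
      Disjoint (L[k.1]'(lt_of_lt_of_le k.2 hL)) (L[l.1]'(lt_of_lt_of_le l.2 hL)) ∧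
      Touch (crel G A) (L[k.1]'(lt_of_lt_of_le k.2 hL)) (L[l.1]'(lt_of_lt_of_le l.2 hL)) := by
    rw [List.pairwise_iff_getElem] at h2
    intro k l hkl
    rcases lt_or_gt_of_ne (fun e => hkl (Fin.ext e) : k.1 ≠ l.1) with e | e
    · exact h2 _ _ _ _ e
    · obtain ⟨e1, e2⟩ := h2 _ _ (lt_of_lt_of_le l.2 hL) (lt_of_lt_of_le k.2 hL) e
      exact ⟨e1.symm, e2.symm hs.symm⟩
  refine ⟨fun k => flat G A (L[k.1]'(lt_of_lt_of_le k.2 hL)),
    fun k => flat_connected (h1 _ (List.getElem_mem _)), fun k l hkl => ?_, fun k l hkl => ?_⟩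
  · refine Set.disjoint_left.2 ?_
    rintro v ⟨p, hp, hv⟩ ⟨q, hq, hv'⟩
    exact Set.disjoint_left.1 (hpw k l hkl).1 hp (blob_uniq hd hv' hv ▸ hq)
  · obtain ⟨p, hp, q, hq, -, x, hx, y, hy, hxy⟩ := (hpw k l hkl).2
    exact ⟨x, ⟨p, hp, hx⟩, y, ⟨q, hq, hy⟩, hxy⟩

end Pool.Agent.P.MP_a374b6_co
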