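import Pool.Agent.P.MP_a374b6_co.Final

/-! Pairing up the remaining classes. -/

namespace Pool.Agent.P.MP_a374b6_co

open Set

variable {W : Type*} {ι : Type*} {r : W → W → Prop} {C : ι → Set W}

theorem Sys.pairs [DecidableEq ι] (h : Sys r C) (R : Finset ι) :
    ∃ L : List (Set W), R.card / 2 ≤ L.length ∧
      (∀ N ∈ L, Conn r N ∧ (∀ x ∈ N, ∃ i ∈ R, x ∈ C i) ∧ ∃ i ∈ R, C i ⊆ N) ∧
      L.Pairwise (fun M N => Disjoint M N ∧ Touch r M N) := by
  induction R using Finset.strongInduction with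
  | H R ih =>
  by_cases h2 : 1 < R.card
  · obtain ⟨a, ha, b, hb, hab⟩ := Finset.one_lt_card.1 h2
    set R' := (R.erase a).erase b with hR'
    have hmem : ∀ i, i ∈ R' ↔ i ≠ b ∧ i ≠ a ∧ i ∈ R := by
      intro i; simp [hR']
    have hsub : R' ⊆ R := fun i hi => ((hmem i).1 hi).2.2
    have hss : R' ⊂ R := ⟨hsub, fun hh => ((hmem a).1 (hh ha)).2.1 rfl⟩
    have hcard : R'.card + 2 = R.card := by
      have e1 := Finset.card_erase_add_one ha
      have e2 := Finset.card_erase_add_one (Finset.mem_erase.2 ⟨hab.symm, hb⟩ : b ∈ R.erase a)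
      rw [hR']; omega
    obtain ⟨L, hL, hL1, hL2⟩ := ih R' hss
    refine ⟨(C a ∪ C b) :: L, ?_, ?_, List.Pairwise.cons ?_ hL2⟩
    · simp only [List.length_cons]; omega
    · intro Y hY
      simp only [List.mem_cons] at hY
      rcases hY with rfl | hY
      · refine ⟨h.conn a b hab, ?_, a, ha, subset_union_left⟩
        rintro x (hx | hx)
        exacts [⟨a, ha, hx⟩, ⟨b, hb, hx⟩]
      · obtain ⟨e1, e2, i, hi, e3⟩ := hL1 Y hY
        refine ⟨e1, fun x hx => ?_, i, hsub hi, e3⟩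
        obtain ⟨j, hj, hxj⟩ := e2 x hx
        exact ⟨j, hsub hj, hxj⟩
    · intro Y hY
      obtain ⟨e1, e2, -⟩ := hL1 Y hY
      constructor
      · rw [Set.disjoint_left]
        intro x hx hxY
        obtain ⟨i, hi, hxi⟩ := e2 x hxY
        obtain ⟨n1, n2, -⟩ := (hmem i).1 hi
        rcases hx with h1 | h1
        exacts [h.disj i a n2 x hxi h1, h.disj i b n1 x hxi h1]
      · obtain ⟨x, hx⟩ := e1.1
        obtain ⟨i, hi, hxi⟩ := e2 x hx
        obtain ⟨y, hy, hxy⟩ := h.nbr ((hmem i).1 hi).2.1 hxi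
        exact ⟨y, Or.inl hy, x, hx, h.symm _ _ hxy⟩
  · refine ⟨[], ?_, by simp, List.Pairwise.nil⟩
    simp only [List.length_nil]; omega

theorem Sys.mixed [DecidableEq ι] (h : Sys r C) (R1 R2 : Finset ι) (hd : Disjoint R1 R2)
    (h3 : ∀ i ∈ R1, Three (C i)) :
    ∃ L : List (Set W), 2 * R1.card / 3 + R2.card / 2 ≤ L.length ∧ (∀ N ∈ L, Conn r N) ∧
      L.Pairwise (fun M N => Disjoint M N ∧ Touch r M N) := by
  obtain ⟨L1, a1, a2, a3⟩ := h.fam_three R1 h3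
  obtain ⟨L2, b1, b2, b3⟩ := h.pairs R2
  refine ⟨L1 ++ L2, ?_, ?_, ?_⟩
  · rw [List.length_append]; omega
  · intro N hN
    rcases List.mem_append.1 hN with hN | hN
    exacts [(a2 N hN).1, (b2 N hN).1]
  · rw [List.pairwise_append]
    refine ⟨a3, b3, fun M hM N hN => ⟨?_, ?_⟩⟩
    · rw [Set.disjoint_left]
      intro x hx hx'
      obtain ⟨i, hi, hxi⟩ := (a2 M hM).2.1 x hx
      obtain ⟨j, hj, hxj⟩ := (b2 N hN).2.1 x hx'
      exact h.disj i j (fun e => Finset.disjoint_left.1 hd hi (e ▸ hj)) x hxi hxj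
    · obtain ⟨x, hx⟩ := (a2 M hM).1.1
      obtain ⟨i, hi, hxi⟩ := (a2 M hM).2.1 x hx
      obtain ⟨j, hj, hjN⟩ := (b2 N hN).2.2
      obtain ⟨y, hy, hxy⟩ := h.nbr (fun e : i = j => Finset.disjoint_left.1 hd hi (e ▸ hj)) hxi
      exact ⟨x, hx, y, hjN hy, hxy⟩

end Pool.Agent.P.MP_a374b6_co
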