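import Pool.Agent.P.MP_a374b6_co.Basic

/-! Classes with at most three vertices and no triple with full classes. -/

namespace Pool.Agent.P.MP_a374b6_co

open Set

variable {W : Type*} {ι : Type*}

/-- Among any four elements of `S` two are equal. -/
def Three (S : Set W) : Prop :=
  ∀ a ∈ S, ∀ b ∈ S, ∀ c ∈ S, ∀ d ∈ S, a = b ∨ a = c ∨ a = d ∨ b = c ∨ b = d ∨ c = d

/-- `x` is related to every element of some class of `R0`. -/
def Univ (r : W → W → Prop) (C : ι → Set W) (R0 : Finset ι) (x : W) : Prop :=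
  ∃ A ∈ R0, ∀ a ∈ C A, r x a

/-- `N` contains all universal vertices of the class `A` and misses at most one vertex of it. -/
def Big2 (r : W → W → Prop) (C : ι → Set W) (R0 : Finset ι) (A : ι) (N : Set W) : Prop :=
  (∀ u ∈ C A, Univ r C R0 u → u ∈ N) ∧ ∀ x ∈ C A, ∀ y ∈ C A, x ∉ N → y ∉ N → x = y

/-- The situation after the first greedy stage. -/
structure Ctx (r : W → W → Prop) (C : ι → Set W) (R0 : Finset ι) : Prop extends Sys r C where
  three : ∀ i ∈ R0, Three (C i)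
  card : 3 ≤ R0.card
  nt : ¬ Triple r C (fun i T => C i ⊆ T) R0

theorem exists_third {R : Finset ι} (h : 3 ≤ R.card) (a b : ι) : ∃ c ∈ R, c ≠ a ∧ c ≠ b := by
  classical
  by_contra hcon
  push Not at hcon
  have : R ⊆ {a, b} := by
    intro c hc
    by_cases e : c = a
    · simp [e]
    · simp [hcon c hc e]
  have h1 := Finset.card_le_card this
  have h2 : ({a, b} : Finset ι).card ≤ 2 := Finset.card_le_two
  omega

variable {r : W → W → Prop} {C : ι → Set W} {R0 : Finset ι}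

theorem Ctx.two (h : Ctx r C R0) {D : ι} (hD : D ∈ R0) (d : W) : ∃ d' ∈ C D, d' ≠ d := by
  by_contra hcon
  push Not at hcon
  obtain ⟨d0, hd0⟩ := h.ne D
  have hd : d ∈ C D := hcon d0 hd0 ▸ hd0
  obtain ⟨a, ha, haD, -⟩ := exists_third h.card D D
  obtain ⟨b, hb, hbD, hba⟩ := exists_third h.card D a
  refine h.nt ⟨D, hD, a, ha, b, hb, haD.symm, hbD.symm, hba.symm, {d}, C a ∪ C b,
    conn_singleton d, h.conn a b hba.symm, ?_, ?_, ?_, ?_, subset_union_left⟩
  · rw [Set.disjoint_singleton_left]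
    rintro (h1 | h1)
    exacts [h.disj D a haD.symm d hd h1, h.disj D b hbD.symm d hd h1]
  · rw [singleton_subset_iff]; exact Or.inl (Or.inl hd)
  · rintro x (hx | hx)
    exacts [Or.inl (Or.inr hx), Or.inr hx]
  · intro x hx; exact hcon x hx

theorem Ctx.not_conn (h : Ctx r C R0) {D B A : ι} (hD : D ∈ R0) (hB : B ∈ R0) (hA : A ∈ R0)
    {u : W} (hu : u ∈ C D) (hB' : ∀ b ∈ C B, r u b) (hAD : A ≠ D) (hAB : A ≠ B) :
    ¬ Conn r (C A ∪ (C D \ {u})) := by
  intro hc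
  have hBD : B ≠ D := by
    rintro rfl
    exact h.indep B u hu u hu (hB' u hu)
  refine h.nt ⟨B, hB, A, hA, D, hD, hAB.symm, hBD, hAD, insert u (C B), _, ?_, hc, ?_, ?_, ?_,
    subset_insert _ _, subset_union_left⟩
  · refine conn_star h.symm (mem_insert _ _) (fun y hy => ?_)
    rcases hy with hy | hy
    exacts [Or.inl hy, Or.inr (hB' y hy)]
  · rw [Set.disjoint_left]
    rintro x (rfl | hx) (h1 | h1)
    · exact h.disj D A hAD.symm x hu h1
    · exact h1.2 rfl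
    · exact h.disj B A hAB.symm x hx h1
    · exact h.disj B D hBD x hx h1.1
  · rintro x (rfl | hx)
    exacts [Or.inr hu, Or.inl (Or.inl hx)]
  · rintro x (hx | hx)
    exacts [Or.inl (Or.inr hx), Or.inr hx.1]

theorem Ctx.two_nbrs (h : Ctx r C R0) {D A : ι} (hD : D ∈ R0) (hA : A ∈ R0) (hAD : A ≠ D)
    {u : W} (hu : u ∈ C D) (hU : Univ r C R0 u) (z : W) : ∃ a ∈ C A, a ≠ z ∧ r u a := by
  obtain ⟨B, hB, hB'⟩ := hU
  by_cases hAB : A = B
  · subst hAB
    obtain ⟨a, ha, haz⟩ := h.two hA z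
    exact ⟨a, ha, haz, hB' a ha⟩
  by_contra hcon
  push Not at hcon
  have huA : u ∉ C A := h.disj D A hAD.symm u hu
  have e : (C A ∪ C D) \ {u} = C A ∪ (C D \ {u}) := by
    ext x
    constructor
    · rintro ⟨h1 | h1, h2⟩
      exacts [Or.inl h1, Or.inr ⟨h1, h2⟩]
    · rintro (h1 | h1)
      · exact ⟨Or.inl h1, fun h2 => huA ((mem_singleton_iff.1 h2) ▸ h1)⟩
      · exact ⟨Or.inr h1.1, h1.2⟩
  apply h.not_conn hD hB hA hu hB' hAD hAB
  rw [← e]
  have key : ∀ x ∈ C A ∪ C D, r u x → x = z := by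
    rintro x (hx | hx) hux
    · by_contra hne
      exact hcon x hx hne hux
    · exact absurd hux (h.indep D u hu x hx)
  refine (h.conn A D hAD).erase_leaf h.symm ?_ ?_
  · rw [e]; exact (h.ne A).mono subset_union_left
  · intro x hx y hy hux huy
    rw [key x hx hux, key y hy huy]

theorem Ctx.big_mem (h : Ctx r C R0) {A : ι} (hA : A ∈ R0) {S : Set W} (hS : Big2 r C R0 A S) :
    ∃ a ∈ C A, a ∈ S := by
  obtain ⟨a, ha⟩ := h.ne A
  obtain ⟨a', ha', hne⟩ := h.two hA a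
  by_contra hcon
  push Not at hcon
  exact hne (hS.2 a' ha' a ha (hcon a' ha') (hcon a ha))

theorem Ctx.compat (h : Ctx r C R0) {A B : ι} (hA : A ∈ R0) (hB : B ∈ R0) (hAB : A ≠ B)
    {S T : Set W} (hS : Big2 r C R0 A S) (hT : Big2 r C R0 B T) : Touch r S T := by
  by_contra hcon
  have hno : ∀ x ∈ S, ∀ y ∈ T, ¬ r x y := fun x hx y hy hxy => hcon ⟨x, hx, y, hy, hxy⟩
  obtain ⟨a, ha, haS⟩ := h.big_mem hA hS
  obtain ⟨b, hb, hbT⟩ := h.big_mem hB hT
  obtain ⟨y, hy, hay⟩ := h.nbr hAB ha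
  obtain ⟨x, hx, hbx⟩ := h.nbr hAB.symm hb
  have hyT : y ∉ T := fun e => hno a haS y e hay
  have hxS : x ∉ S := fun e => hno x e b hbT (h.symm _ _ hbx)
  have hT' : ∀ z ∈ C B, z ≠ y → z ∈ T := fun z hz hzy => by
    by_contra e; exact hzy (hT.2 z hz y hy e hyT)
  have hnb : ∀ z ∈ C B, z ≠ y → ∀ w ∈ C A, r z w → w = x := fun z hz hzy w hw hzw => by
    refine hS.2 w hw x hx (fun e => hno w e z (hT' z hz hzy) (h.symm _ _ hzw)) hxS
  apply hxS
  refine hS.1 x hx ⟨B, hB, fun z hz => ?_⟩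
  by_cases hzy : z = y
  · subst hzy
    by_contra hxz
    have := (h.conn A B hAB).2 (insert x (C B \ {z})) ⟨x, Or.inl hx, mem_insert _ _⟩ (by
      rintro p - q hq (rfl | hp) hpq
      · rcases hq with hq | hq
        · exact absurd hpq (h.indep A p hx q hq)
        · exact Or.inr ⟨hq, fun e => hxz ((mem_singleton_iff.1 e) ▸ hpq)⟩
      · rcases hq with hq | hq
        · exact Or.inl (hnb p hp.1 hp.2 q hq hpq)
        · exact absurd hpq (h.indep B p hp.1 q hq))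
    rcases this (Or.inr hz) with e | e
    · exact h.disj A B hAB x hx (e ▸ hz)
    · exact e.2 rfl
  · obtain ⟨w, hw, hzw⟩ := h.nbr hAB.symm hz
    exact h.symm _ _ (hnb z hz hzy w hw hzw ▸ hzw)

/-- Every vertex has a neighbour in `D` with a second neighbour in its class. -/
theorem Ctx.second (h : Ctx r C R0) {D A : ι} (hA : A ∈ R0) (hAD : A ≠ D) {u : W}
    (hu : u ∈ C A) : ∃ d ∈ C D, r d u ∧ ∃ a ∈ C A, a ≠ u ∧ r d a := by
  by_contra hcon
  push Not at hcon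
  have := (h.conn A D hAD).2 (insert u {d | d ∈ C D ∧ r d u}) ⟨u, Or.inl hu, mem_insert _ _⟩ (by
    rintro p - q hq (rfl | hp) hpq
    · rcases hq with hq | hq
      · exact absurd hpq (h.indep A p hu q hq)
      · exact Or.inr ⟨hq, h.symm _ _ hpq⟩
    · rcases hq with hq | hq
      · by_contra hne
        exact hcon p hp.1 hp.2 q hq (fun e => hne (Or.inl e)) hpq
      · exact absurd hpq (h.indep D p hp.1 q hq))
  obtain ⟨a, ha, hau⟩ := h.two hA u
  rcases this (Or.inl ha) with e | e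
  · exact hau e
  · exact h.disj A D hAD a ha e.1

theorem Three.miss {S : Set W} (h : Three S) {d a a' : W} (ha : a ∈ S) (ha' : a' ∈ S)
    (hne : a ≠ a') (h1 : r d a) (h2 : r d a') :
    ∀ x ∈ S, ∀ y ∈ S, ¬ r d x → ¬ r d y → x = y := by
  intro x hx y hy hdx hdy
  rcases h a ha a' ha' x hx y hy with e | e | e | e | e | e
  · exact absurd e hne
  · exact absurd (e ▸ h1) hdx
  · exact absurd (e ▸ h1) hdy
  · exact absurd (e ▸ h2) hdx
  · exact absurd (e ▸ h2) hdy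
  · exact e

theorem Three.cases {S : Set W} (h : Three S) {a b c x : W} (ha : a ∈ S) (hb : b ∈ S)
    (hc : c ∈ S) (hab : a ≠ b) (hac : a ≠ c) (hbc : b ≠ c) (hx : x ∈ S) :
    x = a ∨ x = b ∨ x = c := by
  rcases h a ha b hb c hc x hx with e | e | e | e | e | e
  · exact absurd e hab
  · exact absurd e hac
  · exact Or.inl e.symm
  · exact absurd e hbc
  · exact Or.inr (Or.inl e.symm)
  · exact Or.inr (Or.inr e.symm)

theorem Ctx.miss_one (h : Ctx r C R0) {D A : ι} (hD : D ∈ R0) (hA : A ∈ R0) (hAD : A ≠ D)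
    {u : W} (hu : u ∈ C D) (hU : Univ r C R0 u) :
    ∀ x ∈ C A, ∀ y ∈ C A, ¬ r u x → ¬ r u y → x = y := by
  obtain ⟨a, ha, -, h1⟩ := h.two_nbrs hD hA hAD hu hU u
  obtain ⟨a', ha', hne, h2⟩ := h.two_nbrs hD hA hAD hu hU a
  exact (h.three A hA).miss ha ha' hne.symm h1 h2

theorem Ctx.path5 (h : Ctx r C R0) {D A : ι} (hD : D ∈ R0) (hA : A ∈ R0) {p q s x y z : W}
    (hp : p ∈ C D) (hq : q ∈ C D) (hs : s ∈ C D) (hpq : p ≠ q) (hps : p ≠ s) (hqs : q ≠ s)
    (hx : x ∈ C A) (hy : y ∈ C A) (hz : z ∈ C A) (hxy : x ≠ y) (hxz : x ≠ z) (hyz : y ≠ z)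
    (e1 : r x p) (e2 : r x q) (e3 : r y q) (e4 : r y s) : Conn r (C D ∪ (C A \ {z})) := by
  have h0 : Conn r ({q, x, y} : Set W) := by
    refine conn_star h.symm (c := q) (by simp) ?_
    rintro w (rfl | rfl | rfl)
    exacts [Or.inl rfl, Or.inr (h.symm _ _ e2), Or.inr (h.symm _ _ e3)]
  refine h0.extend h.symm ?_ ?_
  · rintro w (rfl | rfl | rfl)
    exacts [Or.inl hq, Or.inr ⟨hx, hxz⟩, Or.inr ⟨hy, hyz⟩]
  · rintro w (hw | hw)
    · rcases (h.three D hD).cases hp hq hs hpq hps hqs hw with rfl | rfl | rfl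
      · exact Or.inr ⟨x, by simp, e1⟩
      · exact Or.inl (by simp)
      · exact Or.inr ⟨y, by simp, e4⟩
    · rcases (h.three A hA).cases hx hy hz hxy hxz hyz hw.1 with rfl | rfl | rfl
      · exact Or.inl (by simp)
      · exact Or.inl (by simp)
      · exact absurd rfl hw.2

/-- Some vertex of `D` is adjacent to a big subset of `A`. -/
theorem Ctx.good (h : Ctx r C R0) {D A : ι} (hD : D ∈ R0) (hA : A ∈ R0) (hAD : A ≠ D) :
    ∃ d ∈ C D, Big2 r C R0 A {a | r d a} := by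
  by_cases h1 : ∃ u ∈ C A, ∀ v ∈ C A, Univ r C R0 v → v = u
  · obtain ⟨u, hu, h1⟩ := h1
    obtain ⟨d, hd, hdu, a, ha, hau, hda⟩ := h.second hA hAD hu
    exact ⟨d, hd, fun v hv hU => (h1 v hv hU) ▸ hdu,
      (h.three A hA).miss ha hu hau hda hdu⟩
  push Not at h1
  obtain ⟨u0, hu0⟩ := h.ne A
  obtain ⟨u, hu, hU, -⟩ := h1 u0 hu0
  obtain ⟨u', hu', hU', hne⟩ := h1 u hu
  have hcom : ∃ d ∈ C D, r u d ∧ r u' d := by
    obtain ⟨d1, hd1, -, e1⟩ := h.two_nbrs hA hD hAD.symm hu hU u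
    obtain ⟨d2, hd2, n2, e2⟩ := h.two_nbrs hA hD hAD.symm hu hU d1
    by_contra hcon
    push Not at hcon
    exact n2 (h.miss_one hA hD hAD.symm hu' hU' d2 hd2 d1 hd1 (hcon d2 hd2 e2) (hcon d1 hd1 e1))
  obtain ⟨d, hd, hud, hud'⟩ := hcom
  refine ⟨d, hd, fun w hw hUw => ?_,
    (h.three A hA).miss hu' hu hne (h.symm _ _ hud') (h.symm _ _ hud)⟩
  by_contra hdw
  have hwd : ¬ r w d := fun e => hdw (h.symm _ _ e)
  have huw : u ≠ w := fun e => hwd (e ▸ hud)
  have huw' : u' ≠ w := fun e => hwd (e ▸ hud')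
  obtain ⟨f, hf, hfd, huf⟩ := h.two_nbrs hA hD hAD.symm hu hU d
  obtain ⟨g, hg, hgf, hwg⟩ := h.two_nbrs hA hD hAD.symm hw hUw f
  have hgd : g ≠ d := fun e => hwd (e ▸ hwg)
  have hwf : r w f := by
    by_contra e
    exact hfd (h.miss_one hA hD hAD.symm hw hUw f hf d hd e hwd)
  by_cases hug : r u' g
  · obtain ⟨B, hB, hB'⟩ := hUw
    have hDB : D ≠ B := fun e => hwd (hB' d (e ▸ hd))
    exact h.not_conn hA hB hD hw hB' hAD.symm hDB
      (h.path5 hD hA hf hd hg hfd hgf.symm hgd.symm hu hu' hw hne.symm huw huw' huf hud hud' hug)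
  · obtain ⟨B, hB, hB'⟩ := hU'
    have hDB : D ≠ B := fun e => hug (hB' g (e ▸ hg))
    exact h.not_conn hA hB hD hu' hB' hAD.symm hDB
      (h.path5 hD hA hd hf hg hfd.symm hgd.symm hgf.symm hu hw hu' huw hne.symm huw'.symm
        hud huf hwf hwg)

end Pool.Agent.P.MP_a374b6_co
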